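import Pool.Agent.H429.T4.A3

/-!
# The `2`-adic closure of the points of restrictions of scalars of elliptic curves

Let `L / F` be a cubic extension of number fields which is *admissible*:
* for no place `v` above `2` does `L` embed in `F_v` over `F` (so that there is one place of `L` above `v`);
* the strict Selmer group of `L / F` is trivial: the elements of `L^*` of square norm to `F`, with even valuations away from
  `2`, which are squares in the completions above `2`, are squares.
The second part of the theorem says that the six cubic fields `ℚ(π)`, `π³ + g₂ π² + g₁ π = 1`, `(g₂, g₁)` equal to `(0, -1)`,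
`(0, 1)`, `(1, 1)`, `(-1, 3)`, `(1, 2)`, `(3, 3)`, of discriminants `-23`, `-31`, `-44`, `-76`, `-87`, `-108` (the last one is
`ℚ(2^(1/3))`), are admissible over `ℚ`.

Let `M / F` be a Galois extension whose degree is a power of two (of any exponent, with any Galois group) such that only one
prime of `L` lies above every prime `v ∤ 2` of `F` which is ramified in `M`. Let `K` be a field between `F` and `M`, and let
`E : y² = f(x) = x³ + a x² + b x + c`, with `a, b, c` integers of `K`, be any elliptic curve over `K` such that `f` has a zero in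
the field `T = L K`, not in `K`, and such that only one prime of `T` lies above every prime `w ∤ 2` of `K` whose square divides
the discriminant of `f`.

Theorem.
* (`LocalGlobal`) A point of `E(K)` which is divisible by `2 ^ n` in `E(K_v)` for all `v` above `2` is divisible by `2 ^ n` in
  `E(K)`.
* (`Independence`) The points of `E(K)` which are independent over `ℤ` are independent over `ℤ_2` in `∏ E(K_v)`.

Let `A` be the restriction of scalars of `E` from `K` to `ℚ`. Its dimension is `[K : ℚ]`, `A(ℚ) = E(K)` and
`A(ℚ_2) = ∏ E(K_v)`, `v` above `2`. So the closure in `A(ℚ_2)` of every subgroup of `A(ℚ)` has the `ℤ_2`-rank of the subgroup: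
this is the assertion of Q1 at `p = 2` for `A` and all its abelian subvarieties, hence also for every abelian variety isogenous
to one of them. The curve `E` is not assumed to come from a subfield of `K`: it is `y² = N(x - θ)`, `N` the norm from `L K` to
`K`, for an arbitrary integer `θ` of `L K` up to the condition on the discriminant. Without complex multiplication and if `E` is
not isogenous to its conjugates, `A` is a simple abelian variety with endomorphism ring `ℤ`.

Proof. `E(M) / 2 E(M)` is contained in `(L M)^* / (squares)` by `x - θ`, and the points which are divisible by two in the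
completions above `2` have their image in the strict Selmer group of `L M / M`. This group is trivial: if `M / F` is quadratic
with automorphism `σ` and `z` is in the strict Selmer group of `L M / M` then so is `z σ(z)`, which descends to `L`; it is a
square, so that `z` comes from `L` up to squares (Hilbert 90) and, since the degree of `L` is odd, from an element of the strict
Selmer group of `L / F`. The points descend from `M` to `K` since there are no points of order two.
-/

set_option autoImplicit false

namespace Pool.Agent.Results.MP_52423f_nt.CurvesOverTwoExtensions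

open NumberField IsDedekindDomain Module Polynomial WeierstrassCurve WeierstrassCurve.Affine
open scoped Classical

/-! ### The conclusions -/

/-- The homomorphism `(x, y) ↦ (φ x, φ y)` on points given by a homomorphism `φ` of fields. -/
noncomputable def push {K k : Type} [Field K] [Field k] (V : WeierstrassCurve K) (φ : K →+* k) :
    V.toAffine.Point →+ (V.map φ).toAffine.Point :=
  letI := φ.toAlgebra
  (Point.map (W' := V) (Algebra.ofId K k) : (V⁄K).Point →+ (V⁄k).Point)

/-- The homomorphism from `V(K)` to `V(K_v)`, `K_v` the completion. -/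
noncomputable def toCompletion {K : Type} [Field K] [NumberField K] (V : WeierstrassCurve K)
    (v : HeightOneSpectrum (𝓞 K)) :
    V.toAffine.Point →+ (V.map (algebraMap K (v.adicCompletion K))).toAffine.Point :=
  push V (algebraMap K (v.adicCompletion K))

/-- A point of `V(K)` which is divisible by `2 ^ n` in `V(K_v)` for all `v` above `2` is divisible by `2 ^ n` in `V(K)`. -/
def LocalGlobal {K : Type} [Field K] [NumberField K] (V : WeierstrassCurve K) : Prop :=
  ∀ (n : ℕ) (P : V.toAffine.Point),
    (∀ v : HeightOneSpectrum (𝓞 K), (2 : 𝓞 K) ∈ v.asIdeal → ∃ R, toCompletion V v P = (2 ^ n : ℤ) • R) →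
      ∃ Q, P = (2 ^ n : ℤ) • Q

/-- Points `P i` of `V(K)` which are independent over `ℤ` are independent over `ℤ_2` in the product of the `V(K_v)`, `v` above
`2`: if `∑ a_i P_i = 0` in `V(K_v)` with `a_i ∈ ℤ_2` for all these `v`, that is, for all `n` some combination `∑ m_i P_i` with
integers `m_i ≡ a_i` modulo `2 ^ n` is divisible by `2 ^ n` in `V(K_v)`, then `a = 0`. -/
def Independence {K : Type} [Field K] [NumberField K] (V : WeierstrassCurve K) : Prop :=
  ∀ (r : ℕ) (P : Fin r → V.toAffine.Point), LinearIndependent ℤ P → ∀ a : Fin r → ℤ_[2],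
    (∀ v : HeightOneSpectrum (𝓞 K), (2 : 𝓞 K) ∈ v.asIdeal → ∀ n : ℕ, ∃ m : Fin r → ℤ,
      (∀ i, (2 : ℤ_[2]) ^ n ∣ m i - a i) ∧ ∃ R, toCompletion V v (∑ i, m i • P i) = (2 ^ n : ℤ) • R) →
    a = 0

/-! ### Cubic extensions -/

/-- The field `ℚ_2(τ(L))` for a homomorphism `τ` from `L` to the algebraic closure of `ℚ_2`: the completion of `L` at the place
above `2` given by `τ`. -/
noncomputable def completionAt {L : Type} [Field L] (τ : L →+* AlgebraicClosure ℚ_[2]) :
    IntermediateField ℚ_[2] (AlgebraicClosure ℚ_[2]) :=
  IntermediateField.adjoin ℚ_[2] (Set.range τ)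

/-- `x` is in the strict Selmer group of `L / F`: it is not zero, its norm is a square, its valuations at the primes which do
not divide `2` are even, and it is a square in the completions of `L` at the places above `2`. -/
structure StrictSelmer (F : Type) {L : Type} [Field F] [Field L] [NumberField L] [Algebra F L] (x : L) :
    Prop where
  ne_zero : x ≠ 0
  norm : IsSquare (Algebra.norm F x)
  even : ∀ 𝔓 : HeightOneSpectrum (𝓞 L), (2 : 𝓞 L) ∉ 𝔓.asIdeal →
    ∃ n : ℤ, 𝔓.valuation L x = WithZero.exp (2 * n)
  two : ∀ τ : L →+* AlgebraicClosure ℚ_[2], ∃ s ∈ completionAt τ, τ x = s ^ 2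

/-- The cubic extension `L / F` is admissible: `L` is not contained in the completion of `F` at a place above `2`, and the
strict Selmer group is trivial. -/
structure Admissible (F L : Type) [Field F] [NumberField F] [Field L] [NumberField L] [Algebra F L] :
    Prop where
  degree : finrank F L = 3
  two : ∀ τ : L →+* AlgebraicClosure ℚ_[2], ∃ x : L, τ x ∉ completionAt (τ.comp (algebraMap F L))
  strict : ∀ x : L, StrictSelmer F x → IsSquare x

/-- Only one prime of `L` lies above the prime `v` of `F`. -/
def OnePrime {F : Type} [Field F] [NumberField F] (L : Type) [Field L] [NumberField L]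
    [Algebra F L] (v : HeightOneSpectrum (𝓞 F)) : Prop :=
  ∀ 𝔓 𝔓' : HeightOneSpectrum (𝓞 L), 𝔓.asIdeal.LiesOver v.asIdeal → 𝔓'.asIdeal.LiesOver v.asIdeal → 𝔓 = 𝔓'

/-- The prime `v` of `F` is not ramified in `M`. -/
def Unramified {F : Type} [Field F] [NumberField F] (M : Type) [Field M] [NumberField M]
    [Algebra F M] (v : HeightOneSpectrum (𝓞 F)) : Prop :=
  ∀ w : HeightOneSpectrum (𝓞 M), w.asIdeal.LiesOver v.asIdeal → w.asIdeal.ramificationIdx (𝓞 F) = 1

/-- The coefficients of the six cubic polynomials `x ^ 3 + g₂ x ^ 2 + g₁ x - 1`, of discriminants `-23`, `-31`, `-44`, `-76`,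
`-87`, `-108`. -/
def Six (g₂ g₁ : ℤ) : Prop :=
  (g₂ = 0 ∧ g₁ = -1) ∨ (g₂ = 0 ∧ g₁ = 1) ∨ (g₂ = 1 ∧ g₁ = 1) ∨ (g₂ = -1 ∧ g₁ = 3) ∨
    (g₂ = 1 ∧ g₁ = 2) ∨ (g₂ = 3 ∧ g₁ = 3)

/-! ### The curves -/

/-- The curve `y ^ 2 = x ^ 3 + a x ^ 2 + b x + c` over `K`, with `a, b, c` integers of `K`. -/
def curve {K : Type} [Field K] [NumberField K] (a b c : 𝓞 K) : WeierstrassCurve K :=
  ⟨0, (a : K), 0, (b : K), (c : K)⟩

/-- The discriminant of the polynomial `x ^ 3 + a x ^ 2 + b x + c`. -/
def cubicDisc {K : Type} [Field K] [NumberField K] (a b c : 𝓞 K) : 𝓞 K :=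
  a ^ 2 * b ^ 2 - 4 * b ^ 3 - 4 * a ^ 3 * c - 27 * c ^ 2 + 18 * a * b * c

/-! ### The theorem -/

/-- **Main result.** -/
theorem result :
    (∀ (F L M K T : Type) [Field F] [NumberField F] [Field L] [NumberField L] [Field M] [NumberField M]
      [Field K] [NumberField K] [Field T] [NumberField T] [Algebra F L] [Algebra F M] [IsGalois F M]
      [Algebra F K] [Algebra K M] [IsScalarTower F K M] [Algebra F T] [Algebra L T] [Algebra K T]
      [IsScalarTower F L T] [IsScalarTower F K T] (e : ℕ),
      Admissible F L → finrank F M = 2 ^ e → finrank K T = 3 →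
      (∀ v : HeightOneSpectrum (𝓞 F), (2 : 𝓞 F) ∉ v.asIdeal → ¬ Unramified M v → OnePrime L v) →
      ∀ (a b c : 𝓞 K) (θ : T),
        θ ^ 3 + algebraMap K T a * θ ^ 2 + algebraMap K T b * θ + algebraMap K T c = 0 →
        (∀ q : K, algebraMap K T q ≠ θ) →
        (∀ w : HeightOneSpectrum (𝓞 K), (2 : 𝓞 K) ∉ w.asIdeal → cubicDisc a b c ∈ w.asIdeal ^ 2 →
          OnePrime T w) →
        LocalGlobal (curve a b c) ∧ Independence (curve a b c)) ∧
    (∀ g₂ g₁ : ℤ, Six g₂ g₁ → ∀ (L : Type) [Field L] [NumberField L] (π : L), finrank ℚ L = 3 →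
      π ^ 3 + g₂ * π ^ 2 + g₁ * π - 1 = 0 → Admissible ℚ L) := by
  refine ⟨?_, ?_⟩
  · intro F L M K T _ _ _ _ _ _ _ _ _ _ _ _ _ _ _ _ _ _ _ _ _ e hA hM hT hr a b c θ hθ hθ' hd
    have hadm : H429.T4.Adm F L := ⟨hA.degree, hA.two, fun x hx => hA.strict x
      ⟨hx.ne, hx.norm, hx.even, hx.two⟩⟩
    obtain ⟨h1, h2⟩ := H429.T4.main hadm hM hT (fun v hv hu => hr v hv hu) hθ hθ' hd
    exact ⟨fun k P hP => h1 k P hP, fun r P hP a ha => h2 P hP a ha⟩
  · intro g₂ g₁ hg L _ _ π hk hπ
    have h := H429.T4.Six.adm hg hk hπ
    exact ⟨h.deg, h.two, fun x hx => h.sel x ⟨hx.ne_zero, hx.norm, hx.even, hx.two⟩⟩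

end Pool.Agent.Results.MP_52423f_nt.CurvesOverTwoExtensions
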