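import Pool.Agent.H429.T5.Cur5

/-!
# Elliptic curves with few bad primes over number fields: the `2`-adic closure of the rational points

Let `K` be a number field, `t` an integer of `K`, and `K'/K` a finite Galois extension such that `K'` has exactly one prime
above `2` and no quadratic extension which is unramified at all finite primes not dividing `t` and in which the prime above `2`
splits (`Base`). Let `v` be the prime of `K` above `2` and let `E : y² = f(x) = x³ + a x² + b x + c` be an elliptic curve over
`K`, `a, b, c` integers of `K`, such that `f` has a zero in `K'` and the discriminant of `f` is divisible only by primes which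
divide `2 t`.

Theorem.
* (`LocalGlobal`) `E(K) / 2^n → E(K_v) / 2^n` is injective for all `n`.
* (`Independence`) The points of `E(K)` which are independent over `ℤ` are independent over `ℤ_2` in `E(K_v)`.
In particular the rank of `E(K)` is at most `[K : ℚ]`.

The second part gives examples: `Base` holds for `t = q` a prime number, `q ≡ ± 3 mod 8`, and `K' = K` any subfield of a
Galois extension of `ℚ` whose degree is a power of two and which is unramified at the finite primes not dividing `2 q`. There are
infinitely many such fields (for instance the layers of the cyclotomic `ℤ_2`-extension of `ℚ`, and `ℚ(√-1, √2, √q)`), of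
arbitrarily large degree. So the theorem applies over all these fields to all the curves `E` with a point of order two over `K`
and a discriminant that is divisible only by the primes above `2` and `q`.

Let `A` be the restriction of scalars of `E` from `K` to `ℚ`. Its dimension is `[K : ℚ]`, `A(ℚ) = E(K)` and `A(ℚ_2) = E(K_v)`.
So the closure in `A(ℚ_2)` of every subgroup of `A(ℚ)` has the `ℤ_2`-rank of the subgroup: this is the assertion of Q1 at
`p = 2` for `A` and all its abelian subvarieties.

Proof. The points `y` of `E` over the algebraic closure such that `2^n y` is rational are unramified outside `2 t` (the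
coordinates of `y` are polynomials in the square roots of the `x(2 y) - e_i`, `e_i` the zeros of `f`, and inertia at a prime
not dividing `2 t` fixes these square roots), and the group of `K'` acts on the points of order two through a `2`-group. So the
action on `y` of the group of `K'` factors through a `2`-group, which is generated by the decomposition group at the prime
above `2`: otherwise, by the basis theorem of Burnside, a quadratic extension of `K'` would exist which is unramified outside
`t` and split above `2`. Hence `y` is rational if it is fixed by the decomposition group, which contains the points over `K_v`.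
The last assertion follows by the theorem of Mordell and Weil. The theorem `GoodReductionOutsideTwoPrimes` on this problem is the
corresponding statement for Galois modules, `p` any prime number.
-/

set_option autoImplicit false

open NumberField IsDedekindDomain WeierstrassCurve WeierstrassCurve.Affine

namespace Pool.Agent.Results.MP_52423f_nt.EllipticCurvesTwoTower

/-- The absolute Galois group of `K`. -/
abbrev G (K : Type) [Field K] : Type := Gal(AlgebraicClosure K/K)

/-- The ring of all algebraic integers. -/
abbrev Z (K : Type) [Field K] : Type := 𝓞 (AlgebraicClosure K)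

/-- There is at most one maximal ideal above `2`. -/
def OnePrime (M : Type) [Field M] : Prop :=
  ∀ P Q : Ideal (𝓞 M), P.IsMaximal → Q.IsMaximal → ((2 : ℕ) : 𝓞 M) ∈ P → ((2 : ℕ) : 𝓞 M) ∈ Q → P = Q

variable {K : Type} [Field K]

/-- The inertia group at the prime ideal `P` of the ring of all algebraic integers. -/
def Inertia (P : Ideal (Z K)) : Set (G K) := {τ | ∀ x : Z K, τ • x - x ∈ P}

/-- The decomposition group at the prime ideal `P` of the ring of all algebraic integers. -/
def Decomposition (P : Ideal (Z K)) : Set (G K) := {g | ∀ x : Z K, g • x ∈ P ↔ x ∈ P}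

/-- `Q` does not divide `t`. -/
def Off (t : 𝓞 K) (Q : Ideal (Z K)) : Prop := algebraMap (𝓞 K) (Z K) t ∉ Q

/-- `K'` has no quadratic extension `L` which is unramified at all (finite) primes not dividing `t` and in which all primes
above `2` split completely. -/
def NoSplit (t : 𝓞 K) (K' : IntermediateField K (AlgebraicClosure K)) : Prop :=
  ∀ L : IntermediateField K (AlgebraicClosure K), FiniteDimensional K L → K' ≤ L →
    L.fixingSubgroup.relIndex K'.fixingSubgroup = 2 →
    (∀ Q : Ideal (Z K), Q.IsMaximal → Off t Q →
      ∀ τ ∈ Inertia Q, τ ∈ K'.fixingSubgroup → τ ∈ L.fixingSubgroup) →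
    ¬ ∀ Q : Ideal (Z K), Q.IsMaximal → ((2 : ℕ) : Z K) ∈ Q →
      ∀ δ ∈ Decomposition Q, δ ∈ K'.fixingSubgroup → δ ∈ L.fixingSubgroup

/-- The conditions on the field `K'`. -/
def Base (t : 𝓞 K) (K' : IntermediateField K (AlgebraicClosure K)) : Prop :=
  FiniteDimensional K K' ∧ IsGalois K K' ∧ OnePrime K' ∧ NoSplit t K'

/-- `E` is a Galois extension of `ℚ` of degree a power of two which is unramified at all finite primes not dividing `2 q`:
the inertia groups at these primes are trivial. -/
def TwoExtension (q : ℕ) (E : Type) [Field E] [NumberField E] : Prop :=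
  IsGalois ℚ E ∧ (∃ a : ℕ, Module.finrank ℚ E = 2 ^ a) ∧
    ∀ Q : Ideal (𝓞 E), Q.IsMaximal → ((2 : ℕ) : 𝓞 E) ∉ Q → ((q : ℕ) : 𝓞 E) ∉ Q →
      ∀ g : E ≃ₐ[ℚ] E, (∀ x y : 𝓞 E, (y : E) = g (x : E) → y - x ∈ Q) → g = 1

/-- The curve `y² = x³ + a x² + b x + c`. -/
noncomputable def curve (a b c : 𝓞 K) : WeierstrassCurve K := ⟨0, (a : K), 0, (b : K), (c : K)⟩

/-- The discriminant of the polynomial `x³ + a x² + b x + c`. -/
noncomputable def cubicDisc (a b c : 𝓞 K) : 𝓞 K :=
  a ^ 2 * b ^ 2 - 4 * b ^ 3 - 4 * a ^ 3 * c - 27 * c ^ 2 + 18 * a * b * c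

open scoped Classical in
/-- The homomorphism `(x, y) ↦ (φ x, φ y)` on points given by a homomorphism `φ` of fields. -/
noncomputable def push {k : Type} [Field k] (V : WeierstrassCurve K) (φ : K →+* k) :
    V.toAffine.Point →+ (V.map φ).toAffine.Point :=
  letI := φ.toAlgebra
  (Point.map (W' := V) (Algebra.ofId K k) : (V⁄K).Point →+ (V⁄k).Point)

open scoped Classical in
/-- The homomorphism from `V(K)` to `V(K_v)`, `K_v` the completion. -/
noncomputable def toCompletion [NumberField K] (V : WeierstrassCurve K)
    (v : HeightOneSpectrum (𝓞 K)) :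
    V.toAffine.Point →+ (V.map (algebraMap K (v.adicCompletion K))).toAffine.Point :=
  push V (algebraMap K (v.adicCompletion K))

open scoped Classical in
/-- A point of `V(K)` which is divisible by `2 ^ n` in `V(K_v)` is divisible by `2 ^ n` in `V(K)`. -/
def LocalGlobal [NumberField K] (V : WeierstrassCurve K) (v : HeightOneSpectrum (𝓞 K)) : Prop :=
  ∀ (n : ℕ) (P : V.toAffine.Point),
    (∃ R, toCompletion V v P = (2 ^ n : ℤ) • R) → ∃ Q, P = (2 ^ n : ℤ) • Q

open scoped Classical in
/-- Points `P i` of `V(K)` which are independent over `ℤ` are independent over `ℤ_2` in `V(K_v)`: if `∑ a_i P_i = 0` with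
`a_i ∈ ℤ_2`, that is, for all `n` some combination `∑ m_i P_i` with integers `m_i ≡ a_i` modulo `2 ^ n` is divisible by
`2 ^ n` in `V(K_v)`, then `a = 0`. -/
def Independence [NumberField K] (V : WeierstrassCurve K) (v : HeightOneSpectrum (𝓞 K)) : Prop :=
  ∀ (r : ℕ) (P : Fin r → V.toAffine.Point), LinearIndependent ℤ P → ∀ a : Fin r → ℤ_[2],
    (∀ n : ℕ, ∃ m : Fin r → ℤ, (∀ i, (2 : ℤ_[2]) ^ n ∣ m i - a i) ∧
      ∃ R, toCompletion V v (∑ i, m i • P i) = (2 ^ n : ℤ) • R) → a = 0

/-- the field `K` as a subfield of its algebraic closure -/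
noncomputable abbrev bot (K : Type) [Field K] : IntermediateField K (AlgebraicClosure K) := ⊥

theorem one_bot [NumberField K] (h : ∀ P Q : Ideal (𝓞 K), P.IsMaximal → Q.IsMaximal →
    ((2 : ℕ) : 𝓞 K) ∈ P → ((2 : ℕ) : 𝓞 K) ∈ Q → P = Q) : OnePrime (bot K) := by
  have hs : Function.Surjective (algebraMap (𝓞 K) (𝓞 (bot K))) := by
    intro x
    obtain ⟨r, hr⟩ := IntermediateField.mem_bot.1 (x : bot K).2
    have h2 : IsIntegral ℤ ((x : bot K) : AlgebraicClosure K) :=
      (isIntegral_algebraMap_iff (algebraMap (bot K) (AlgebraicClosure K)).injective).2 x.2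
    rw [← hr] at h2
    have h3 : IsIntegral ℤ r :=
      (isIntegral_algebraMap_iff (algebraMap K (AlgebraicClosure K)).injective).1 h2
    refine ⟨⟨r, h3⟩, RingOfIntegers.ext (Subtype.ext ?_)⟩
    rw [← hr]
    rfl
  intro P Q hP hQ hpP hpQ
  apply Ideal.comap_injective_of_surjective _ hs
  refine h _ _ (Ideal.comap_isMaximal_of_surjective _ hs) (Ideal.comap_isMaximal_of_surjective _ hs)
    ?_ ?_
  · rw [Ideal.mem_comap, map_natCast]; exact hpP
  · rw [Ideal.mem_comap, map_natCast]; exact hpQ

open scoped Classical in
/-- **Main result.** -/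
theorem result :
    (∀ (K : Type) [Field K] [NumberField K] (t : 𝓞 K) (K' : IntermediateField K (AlgebraicClosure K)),
      Base t K' → ∀ a b c : 𝓞 K, cubicDisc a b c ≠ 0 →
      (∀ Q : Ideal (𝓞 K), Q.IsMaximal → cubicDisc a b c ∈ Q → ((2 : ℕ) : 𝓞 K) ∈ Q ∨ t ∈ Q) →
      (∃ z ∈ K', z ^ 3 + algebraMap K (AlgebraicClosure K) a * z ^ 2 +
        algebraMap K (AlgebraicClosure K) b * z + algebraMap K (AlgebraicClosure K) c = 0) →
      ∀ v : HeightOneSpectrum (𝓞 K), ((2 : ℕ) : 𝓞 K) ∈ v.asIdeal →
        LocalGlobal (curve a b c) v ∧ Independence (curve a b c) v) ∧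
    ∀ q : ℕ, q.Prime → q % 8 = 3 ∨ q % 8 = 5 → ∀ (K E : Type) [Field K] [NumberField K] [Field E]
      [NumberField E] [Algebra K E], TwoExtension q E → Base (K := K) ((q : ℕ) : 𝓞 K) ⊥ := by
  refine ⟨?_, ?_⟩
  · rintro K _ _ t K' ⟨_, _, hone, hNS⟩ a b c h0 hd ⟨z, hzK, hz⟩ v hv
    have e : IntermediateField.fixedField K'.fixingSubgroup = K' :=
      InfiniteGalois.fixedField_fixingSubgroup K'
    have hUo : IsOpen (K'.fixingSubgroup : Set Gal(AlgebraicClosure K/K)) :=
      (InfiniteGalois.isOpen_iff_finite K').2 inferInstance
    have hone' : Pool.Agent.X290.Reg.OnePrime 2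
        (IntermediateField.fixedField K'.fixingSubgroup) := by rw [e]; exact hone
    have hNS' : Pool.Agent.H429.T5.NoSplitG 2 t K'.fixingSubgroup := by
      intro W hWU hWo hWn hidx hI hD
      have hWf : (IntermediateField.fixedField W).fixingSubgroup = W :=
        InfiniteGalois.fixingSubgroup_fixedField ⟨W, Subgroup.isClosed_of_isOpen _ hWo⟩
      have hfd : FiniteDimensional K (IntermediateField.fixedField W) :=
        (InfiniteGalois.isOpen_iff_finite _).1 (by rw [hWf]; exact hWo)
      have hle : K' ≤ IntermediateField.fixedField W := by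
        intro x hx
        rw [IntermediateField.mem_fixedField_iff]
        intro g hg
        exact (IntermediateField.mem_fixingSubgroup_iff _ _).1 (hWU hg) x hx
      refine hNS (IntermediateField.fixedField W) hfd hle ?_ ?_ ?_
      · rw [hWf]; exact hidx
      · rw [hWf]; exact hI
      · rw [hWf]; exact hD
    exact Pool.Agent.H429.T5.ell K'.fixingSubgroup hUo hNS' hone' h0 hd z
      (fun u hu => (IntermediateField.mem_fixingSubgroup_iff _ _).1 hu z hzK) hz v hv
  · intro q hq h8 K E _ _ _ _ _ ⟨hG, ⟨a, ha⟩, hun⟩
    obtain ⟨hNS, hone⟩ := Pool.Agent.H429.T5.tow q hq h8 K E a ha hun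
    have hU : (bot K).fixingSubgroup = ⊤ := by
      rw [eq_top_iff]
      intro g _
      rw [IntermediateField.mem_fixingSubgroup_iff]
      intro x hx
      rw [IntermediateField.mem_bot] at hx
      obtain ⟨r, rfl⟩ := hx
      exact g.commutes r
    show FiniteDimensional K (bot K) ∧ IsGalois K (bot K) ∧ OnePrime (bot K) ∧
      NoSplit ((q : ℕ) : 𝓞 K) (bot K)
    refine ⟨?_, ?_, one_bot hone, ?_⟩
    · infer_instance
    · exact (InfiniteGalois.normal_iff_isGalois (bot K)).1 (by rw [hU]; infer_instance)
    · intro L hfd _ hidx hI hD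
      rw [hU] at hidx hI hD
      have hLo := (InfiniteGalois.isOpen_iff_finite L).2 hfd
      have hn : ∀ x ∈ L.fixingSubgroup, ∀ u ∈ (⊤ : Subgroup (G K)),
          u * x * u⁻¹ ∈ L.fixingSubgroup := by
        have h2 : L.fixingSubgroup.index = 2 := by
          rw [← Subgroup.relIndex_top_right]; exact hidx
        have h3 : L.fixingSubgroup.Normal := Subgroup.normal_of_index_eq_two h2
        intro x hx u _
        exact h3.conj_mem x hx u
      exact hNS L.fixingSubgroup le_top hLo hn hidx hI hD

end Pool.Agent.Results.MP_52423f_nt.EllipticCurvesTwoTower
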