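import Pool.Agent.H429.T5.Ex

/-!
# `p`-adic independence of rational points of abelian varieties with good reduction outside `p` and `t`

Let `K` be a number field, `t` an integer of `K`, and `K'/K` a finite Galois extension such that `K'` has exactly one prime
above `p` and no Galois extension of degree `p` which is unramified at all finite primes not dividing `t` and totally split at
the prime above `p`. Then the decomposition group at `p` is the whole Galois group of every finite Galois extension of
`p`-power degree of `K'` which is unramified outside `p t` and Galois over `K`.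

Let `M` be a discrete module for `G_K` with the following properties of the group of points over `Kbar` of an abelian variety
over `K` with good reduction outside `p t`, for which the Galois group of the field of `p`-torsion points over `K'` is a
`p`-group: if `p^n y` is rational, `y` is unramified outside `p t`; and every element of `G_{K'}` acts on every `y` with
`p y = 0` through an element of `p`-power order. Then a point `y` which is fixed by the decomposition group at `p` (a point over
`K_p`) and such that `p^n y` is rational is itself rational. If the group of rational points is finitely generated, rational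
points which are independent over `ℤ` are independent over `ℤ_p` in the `p`-adic completion of the group of points over `K_p`:
the closure of the group they generate has full rank.

Example: `K = K' = ℚ`, `p = 2`, `t = q` a prime number, `q ≡ ± 3 mod 8`: all abelian varieties over `ℚ` with good reduction
outside `2 q` for which the degree of the field of `2`-torsion points is a power of two.
-/

set_option autoImplicit false

open NumberField

namespace Pool.Agent.Results.MP_52423f_nt.GoodReductionOutsideTwoPrimes

/-- The absolute Galois group of `K`. -/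
abbrev G (K : Type) [Field K] : Type := Gal(AlgebraicClosure K/K)

/-- The ring of all algebraic integers. -/
abbrev Z (K : Type) [Field K] : Type := 𝓞 (AlgebraicClosure K)

/-- There is at most one maximal ideal above `p`. -/
def OnePrime (p : ℕ) (M : Type) [Field M] : Prop :=
  ∀ P Q : Ideal (𝓞 M), P.IsMaximal → Q.IsMaximal → (p : 𝓞 M) ∈ P → (p : 𝓞 M) ∈ Q → P = Q

variable {K : Type} [Field K]

/-- The inertia group at the prime ideal `P` of the ring of all algebraic integers. -/
def Inertia (P : Ideal (Z K)) : Set (G K) := {τ | ∀ x : Z K, τ • x - x ∈ P}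

/-- The decomposition group at the prime ideal `P` of the ring of all algebraic integers. -/
def Decomposition (P : Ideal (Z K)) : Set (G K) := {g | ∀ x : Z K, g • x ∈ P ↔ x ∈ P}

/-- `Q` does not divide `t`. -/
def Off (t : 𝓞 K) (Q : Ideal (Z K)) : Prop := algebraMap (𝓞 K) (Z K) t ∉ Q

/-- `K'` has no Galois extension `L` of degree `p` which is unramified at all (finite) primes not dividing `t` and in which
all primes above `p` split completely. -/
def NoSplit (p : ℕ) (t : 𝓞 K) (K' : IntermediateField K (AlgebraicClosure K)) : Prop :=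
  ∀ L : IntermediateField K (AlgebraicClosure K), FiniteDimensional K L → K' ≤ L →
    (∀ x ∈ L.fixingSubgroup, ∀ u ∈ K'.fixingSubgroup, u * x * u⁻¹ ∈ L.fixingSubgroup) →
    L.fixingSubgroup.relIndex K'.fixingSubgroup = p →
    (∀ Q : Ideal (Z K), Q.IsMaximal → Off t Q →
      ∀ τ ∈ Inertia Q, τ ∈ K'.fixingSubgroup → τ ∈ L.fixingSubgroup) →
    ¬ ∀ Q : Ideal (Z K), Q.IsMaximal → (p : Z K) ∈ Q →
      ∀ δ ∈ Decomposition Q, δ ∈ K'.fixingSubgroup → δ ∈ L.fixingSubgroup

/-- The conditions on the field `K'`. -/
def Base (p : ℕ) (t : 𝓞 K) (K' : IntermediateField K (AlgebraicClosure K)) : Prop :=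
  FiniteDimensional K K' ∧ IsGalois K K' ∧ OnePrime p K' ∧ NoSplit p t K'

/-- The decomposition group at `P` is everything in the quotients of `Gal(Kbar/K')` of `p`-power exponent, by open normal
subgroups `N` of `Gal(Kbar/K)` (intersected with `Gal(Kbar/K')`), which are unramified outside `p t`. -/
def FullDecomposition (p : ℕ) (t : 𝓞 K) (K' : IntermediateField K (AlgebraicClosure K))
    (P : Ideal (Z K)) : Prop :=
  ∀ N : Subgroup (G K), N.Normal → IsOpen (N : Set (G K)) →
    (∀ Q : Ideal (Z K), Q.IsMaximal → (p : Z K) ∉ Q → Off t Q → ∀ τ ∈ Inertia Q, τ ∈ N) →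
    (∀ u ∈ K'.fixingSubgroup, ∃ k : ℕ, u ^ p ^ k ∈ N) →
    ∀ u ∈ K'.fixingSubgroup, ∃ d ∈ Decomposition P, d ∈ K'.fixingSubgroup ∧ d⁻¹ * u ∈ N

variable (M : Type) [AddCommGroup M] [DistribMulAction (G K) M]

/-- The group of rational points of `M`. -/
def Rational : AddSubgroup M where
  carrier := {y | ∀ g : G K, g • y = y}
  add_mem' {x y} hx hy g := by rw [smul_add, hx g, hy g]
  zero_mem' g := smul_zero g
  neg_mem' {x} hx g := by rw [smul_neg, hx g]

/-- The points over the completion at `P`. -/
def Local (P : Ideal (Z K)) : Set M := {y | ∀ d ∈ Decomposition P, d • y = y}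

/-- The conditions on the Galois module `M`: it is discrete; if `p ^ n • y` is rational, `y` is unramified outside `p t`;
the elements of `Gal(Kbar/K')` act on the `p`-torsion points through elements of `p`-power order. -/
def PointsLike (p : ℕ) (t : 𝓞 K) (K' : IntermediateField K (AlgebraicClosure K)) : Prop :=
  (∀ y : M, IsOpen (MulAction.stabilizer (G K) y : Set (G K))) ∧
  (∀ (n : ℕ) (y : M), p ^ n • y ∈ Rational (K := K) M → ∀ Q : Ideal (Z K), Q.IsMaximal →
    (p : Z K) ∉ Q → Off t Q → ∀ τ ∈ Inertia Q, τ • y = y) ∧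
  ∀ y : M, p • y = 0 → ∀ u ∈ K'.fixingSubgroup, ∃ k : ℕ, u ^ p ^ k • y = y

/-- A point over the completion, a `p`-power multiple of which is rational, is rational. -/
def Saturated (p : ℕ) (P : Ideal (Z K)) : Prop :=
  ∀ n : ℕ, ∀ y ∈ Local M P, p ^ n • y ∈ Rational (K := K) M → y ∈ Rational (K := K) M

/-- Rational points `x i`, independent over `ℤ`, are independent over `ℤ_p` in the `p`-adic
completion of the group of points over the completion: if the `a i` are `p`-adic integers such that
for all `n` some integral combination `∑ b i x i` with `b i` congruent to `a i` modulo `p ^ n` is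
`p ^ n` times a point over the completion, then all `a i` are `0`. -/
def Independent (p : ℕ) [Fact p.Prime] (P : Ideal (Z K)) : Prop :=
  Module.Finite ℤ (Rational (K := K) M) →
    ∀ (r : ℕ) (x : Fin r → Rational (K := K) M), LinearIndependent ℤ x → ∀ a : Fin r → ℤ_[p],
      (∀ n : ℕ, ∃ b : Fin r → ℤ, (∀ i, (b i : ℤ_[p]) - a i ∈ Ideal.span {(p : ℤ_[p]) ^ n}) ∧
        ∃ y ∈ Local M P, ∑ i, b i • (x i : M) = p ^ n • y) → a = 0

/-- the field `K` as a subfield of its algebraic closure -/
noncomputable abbrev bot (K : Type) [Field K] : IntermediateField K (AlgebraicClosure K) := ⊥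

theorem int_bot (x : 𝓞 (bot ℚ)) : ∃ n : ℤ, x = (n : 𝓞 (bot ℚ)) := by
  obtain ⟨r, hr⟩ := IntermediateField.mem_bot.1 (x : bot ℚ).2
  have h2 : IsIntegral ℤ ((x : bot ℚ) : AlgebraicClosure ℚ) :=
    (isIntegral_algebraMap_iff (algebraMap (bot ℚ) (AlgebraicClosure ℚ)).injective).2 x.2
  rw [← hr] at h2
  have h3 : IsIntegral ℤ r :=
    (isIntegral_algebraMap_iff (algebraMap ℚ (AlgebraicClosure ℚ)).injective).1 h2
  obtain ⟨n, hn⟩ := IsIntegrallyClosed.isIntegral_iff.1 h3
  refine ⟨n, RingOfIntegers.ext (Subtype.ext ?_)⟩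
  rw [← hr, ← hn]
  simp

theorem mem_bot_iff (P : Ideal (𝓞 (bot ℚ))) (hP : P.IsMaximal) (h2 : ((2 : ℕ) : 𝓞 (bot ℚ)) ∈ P)
    (n : ℤ) : (n : 𝓞 (bot ℚ)) ∈ P ↔ (2 : ℤ) ∣ n := by
  constructor
  · intro hn
    by_contra h
    obtain ⟨k, hk⟩ : Odd n := by
      rw [← Int.not_even_iff_odd, even_iff_two_dvd]; exact h
    apply hP.ne_top
    rw [Ideal.eq_top_iff_one]
    have h1 : (n : 𝓞 (bot ℚ)) - k * ((2 : ℕ) : 𝓞 (bot ℚ)) = 1 := by
      rw [hk]; push_cast; ring
    rw [← h1]
    exact P.sub_mem hn (P.mul_mem_left _ h2)
  · rintro ⟨k, rfl⟩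
    push_cast
    exact P.mul_mem_right _ (by exact_mod_cast h2)

theorem one_bot : OnePrime 2 (bot ℚ) := by
  intro P Q hP hQ hpP hpQ
  ext x
  obtain ⟨n, rfl⟩ := int_bot x
  rw [mem_bot_iff P hP hpP, mem_bot_iff Q hQ hpQ]

omit [AddCommGroup M] in
/-- The theorem. -/
theorem result :
    (∀ (p : ℕ) [Fact p.Prime] (K : Type) [Field K] [NumberField K] (t : 𝓞 K)
      (K' : IntermediateField K (AlgebraicClosure K)), Base p t K' →
      ∀ P : Ideal (Z K), P.IsMaximal → (p : Z K) ∈ P → FullDecomposition p t K' P ∧
      ∀ (M : Type) [AddCommGroup M] [DistribMulAction (G K) M], PointsLike M p t K' →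
        Saturated M p P ∧ Independent M p P) ∧
    ∀ q : ℕ, q.Prime → q % 8 = 3 ∨ q % 8 = 5 →
      Base (K := ℚ) 2 ((q : ℕ) : 𝓞 ℚ) ⊥ := by
  refine ⟨?_, ?_⟩
  · rintro p hpf K _ _ t K' ⟨_, _, hone, hNS⟩ P hP hpP
    have e : IntermediateField.fixedField K'.fixingSubgroup = K' :=
      InfiniteGalois.fixedField_fixingSubgroup K'
    have hUn : K'.fixingSubgroup.Normal :=
      (InfiniteGalois.normal_iff_isGalois K').2 inferInstance
    have hUo : IsOpen (K'.fixingSubgroup : Set Gal(AlgebraicClosure K/K)) :=
      (InfiniteGalois.isOpen_iff_finite K').2 inferInstance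
    have hone' : Pool.Agent.X290.Reg.OnePrime p
        (IntermediateField.fixedField K'.fixingSubgroup) := by rw [e]; exact hone
    have hNS' : Pool.Agent.H429.T5.NoSplitG p t K'.fixingSubgroup := by
      intro W hWU hWo hWn hidx hI hD
      have hWf : (IntermediateField.fixedField W).fixingSubgroup = W :=
        InfiniteGalois.fixingSubgroup_fixedField ⟨W, Subgroup.isClosed_of_isOpen _ hWo⟩
      have hfd : FiniteDimensional K (IntermediateField.fixedField W) :=
        (InfiniteGalois.isOpen_iff_finite _).1 (by rw [hWf]; exact hWo)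
      have hle : K' ≤ IntermediateField.fixedField W := by
        intro x hx
        rw [IntermediateField.mem_fixedField_iff]
        intro g hg
        exact (IntermediateField.mem_fixingSubgroup_iff _ _).1 (hWU hg) x hx
      refine hNS (IntermediateField.fixedField W) hfd hle ?_ ?_ ?_ ?_
      · rw [hWf]; exact hWn
      · rw [hWf]; exact hidx
      · rw [hWf]; exact hI
      · rw [hWf]; exact hD
    refine ⟨fun N hN hNo hur hpow u hu => ?_, ?_⟩
    · obtain ⟨d, hd, hdU, h⟩ := Pool.Agent.H429.T5.mod_openD K'.fixingSubgroup hUo hNS' hone' hP hpP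
        N hNo hur hpow u hu
      exact ⟨d, hd, hdU, h⟩
    rintro M _ _ ⟨hst, hur, hpow⟩
    have hrat : ∀ (n : ℕ) (y : M), p ^ n • y ∈ Rational (K := K) M → ∀ g : G K,
        p ^ n • (g • y) ∈ Rational (K := K) M := by
      intro n y hy g
      have h1 : p ^ n • (g • y) = p ^ n • y := by
        rw [← smul_comm g (p ^ n) y]
        exact hy g
      rw [h1]
      exact hy
    have hsat : Saturated M p P := by
      intro n y hyL hy g
      obtain ⟨d, hd, h⟩ := Pool.Agent.H429.T5.orbit_valuesD K'.fixingSubgroup hUo hNS' hone' hP hpP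
        y (hst y) (fun Q hQ hpQ htQ τ hτ g => hur n (g • y) (hrat n y hy g) Q hQ hpQ htQ τ hτ)
        (fun u hu g => Pool.Agent.X290.Reg.ppow K'.fixingSubgroup hpow n (g • y) u hu
          (hrat n y hy g u)) g
      rw [← h]
      exact hyL d hd
    refine ⟨hsat, ?_⟩
    intro hfg r x hx a ha
    refine Pool.Agent.X290.Reg.fg_indep x hx a fun n => ?_
    obtain ⟨b, hb, y, hy, h⟩ := ha n
    refine ⟨b, hb, ?_⟩
    have h1 : p ^ n • y ∈ Rational (K := K) M := by
      rw [← h]
      exact AddSubgroup.sum_mem _ fun i _ => AddSubgroup.zsmul_mem _ (x i).2 _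
    refine ⟨⟨y, hsat n y hy h1⟩, ?_⟩
    apply Subtype.ext
    rw [AddSubgroup.val_finsetSum]
    exact h
  · intro q hq h8
    have hU : (bot ℚ).fixingSubgroup = ⊤ := by
      rw [eq_top_iff]
      intro g _
      rw [IntermediateField.mem_fixingSubgroup_iff]
      intro x hx
      rw [IntermediateField.mem_bot] at hx
      obtain ⟨r, rfl⟩ := hx
      exact g.commutes r
    show FiniteDimensional ℚ (bot ℚ) ∧ IsGalois ℚ (bot ℚ) ∧ OnePrime 2 (bot ℚ) ∧
      NoSplit 2 ((q : ℕ) : 𝓞 ℚ) (bot ℚ)
    refine ⟨?_, ?_, one_bot, ?_⟩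
    · infer_instance
    · exact (InfiniteGalois.normal_iff_isGalois (bot ℚ)).1 (by rw [hU]; infer_instance)
    · intro L hfd _ hn hidx hI hD
      rw [hU] at hidx hn hI hD
      have hLo := (InfiniteGalois.isOpen_iff_finite L).2 hfd
      exact Pool.Agent.H429.T5.noSplit_Q q hq h8 L.fixingSubgroup le_top hLo hn hidx hI hD

end Pool.Agent.Results.MP_52423f_nt.GoodReductionOutsideTwoPrimes
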